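import Pool.Agent.SYZ.ComponentRank

/-!
The components of the graph of the prime divisors orthogonal to a nef isotropic class `L` in the
divisor data of a hyperkähler manifold. Every component is finite; it either carries an effective
divisor proportional to `L`, unique up to scaling and with full support, or its classes are linearly
independent modulo `L`. All but finitely many components are single primes proportional to `L`. The
rank of `L^⊥` is the sum of the rank of the group of classes orthogonal to `L` and to all these
primes, of the numbers `|C| - 1` for the carrying components and `|C|` for the others (a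
Shioda-Tate formula). The number of carrying components is `0`, `1` or infinite, according as the
Iitaka dimension of `L` is `-∞`, `0` or positive. In the presence of monodromy data, every component
carries.
-/

namespace Pool.Agent.Results.MP_a405d2_ag.ComponentTrichotomy

open Pool.Agent.SYZ

open Classical in
theorem result {K P Pic : Type*} [Field K] [Algebra ℂ K] [AddCommGroup Pic] [Module.Finite ℤ Pic]
    (S : HKDivisors K P Pic) (L : Pic) (hL : S.NefIsotropic L) :
    (∀ C : (S.graph.induce (S.orth L)).ConnectedComponent, C.supp.Finite ∧
      (S.Carries L (Subtype.val '' C.supp) ∨ S.IndependentMod L (Subtype.val '' C.supp))) ∧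
    {C : (S.graph.induce (S.orth L)).ConnectedComponent |
      ¬ (S.Carries L (Subtype.val '' C.supp) ∧ C.supp.Subsingleton)}.Finite ∧
    Module.finrank ℤ (S.doublePerp L) +
      ∑ᶠ C : (S.graph.induce (S.orth L)).ConnectedComponent,
        (C.supp.ncard - if S.Carries L (Subtype.val '' C.supp) then 1 else 0) = S.perpRank L ∧
    (S.QEffective L ↔ ∃ C : (S.graph.induce (S.orth L)).ConnectedComponent,
      S.Carries L (Subtype.val '' C.supp)) ∧
    List.TFAE [S.TwoSections L,
      ∃ C C' : (S.graph.induce (S.orth L)).ConnectedComponent, C ≠ C' ∧
        S.Carries L (Subtype.val '' C.supp) ∧ S.Carries L (Subtype.val '' C'.supp),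
      {C : (S.graph.induce (S.orth L)).ConnectedComponent |
        S.Carries L (Subtype.val '' C.supp)}.Infinite] ∧
    ∀ _M : MonodromyData S, ∀ C : (S.graph.induce (S.orth L)).ConnectedComponent,
      S.Carries L (Subtype.val '' C.supp) :=
  ⟨S.component_finite hL, (S.rank_formula' hL).1, (S.rank_formula' hL).2,
    S.qEffective_iff_carries hL, S.tfae_carries hL,
    fun M C => S.carries_of_monodromy M hL C⟩

end Pool.Agent.Results.MP_a405d2_ag.ComponentTrichotomy
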