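import Pool.Agent.SYZ.StabMain

/-!
The Iitaka field of a nef isotropic class `L` in terms of the bimeromorphic self-maps fixing `L`,
one of which, `φ`, has infinite order on the Picard group (a parabolic map).

A nonzero meromorphic function `f` is constant or a quotient of two sections of a power of `L` if
and only if its divisor is supported on prime divisors orthogonal to `L`, if and only if the degrees
of the pole divisors of its images under all self-maps fixing `L` are bounded, if and only if they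
are bounded for self-maps inducing infinitely many isometries of the Picard group, if and only if
the pole degrees along the orbit under `φ` do not grow at least quadratically, if and only if it
lies in the field generated by the functions `h` with `γ h = a h + b`; and this holds if `γ ^ j f`
is algebraic over `ℂ(f)` for some `j > 0`.

There are `m + 1` algebraically independent quotients of sections if and only if there are `m + 1`
algebraically independent functions generating periodic pencils, if and only if there are `m + 1`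
algebraically independent functions, the first with `γ f = a f + b` and the others with
`γ f = a f`.

For `m = 0` this holds if and only if more than `rank W` prime divisors have their class in the
group `W` of the classes that are periodic under every self-map fixing `L`, whose rank is smaller
than that of `L^⊥`.
-/

namespace Pool.Agent.Results.MP_a405d2_ag.IitakaNorthcott

open Pool.Agent.SYZ

theorem result {K P Pic : Type*} [Field K] [Algebra ℂ K] [AddCommGroup Pic] [Module.Finite ℤ Pic]
    [IsAddTorsionFree Pic] (S : HKDivisors K P Pic)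
    (hfd : ∀ E : P →₀ ℤ, FiniteDimensional ℂ (S.sections E)) (φ : SelfMap S) (L : Pic)
    (hL : S.NefIsotropic L) (hφ : φ.g L = L) (hinf : ¬ IsOfFinOrder φ.g) :
    (∀ f : K, f ≠ 0 → List.TFAE [(∃ c : ℂ, f = algebraMap ℂ K c) ∨ f ∈ S.sectionQuotients L,
      ∀ D, D ∉ S.orth L → S.v D f = 0,
      ∃ C : ℝ, ∀ ψ : SelfMap S, ψ.g L = L → S.poleDeg (ψ.γ f) ≤ C,
      ∃ C : ℝ, {h : Pic ≃ₗ[ℤ] Pic | ∃ ψ : SelfMap S, ψ.g = h ∧ ψ.g L = L ∧
        S.poleDeg (ψ.γ f) ≤ C}.Infinite,
      ∀ c : ℝ, 0 < c → ∀ n : ℕ, ∃ k : ℕ, n ≤ k ∧ S.poleDeg ((φ.γ ^ k) f) < c * k ^ 2,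
      f ∈ IntermediateField.adjoin ℂ
        {h : K | ∃ a b : ℂ, φ.γ h = algebraMap ℂ K a * h + algebraMap ℂ K b}]) ∧
    (∀ (f : K) (j : ℕ), 0 < j →
      IsAlgebraic (IntermediateField.adjoin ℂ {f}) ((φ.γ ^ j) f) →
      (∃ c : ℂ, f = algebraMap ℂ K c) ∨ f ∈ S.sectionQuotients L) ∧
    (∀ m : ℕ, List.TFAE [∃ f : Fin (m + 1) → K, AlgebraicIndependent ℂ f ∧
        ∀ i, f i ∈ S.sectionQuotients L,
      ∃ f : Fin (m + 1) → K, AlgebraicIndependent ℂ f ∧ ∀ i, ∃ j : ℕ, 0 < j ∧
        IsAlgebraic (IntermediateField.adjoin ℂ {f i}) ((φ.γ ^ j) (f i)),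
      ∃ f : Fin (m + 1) → K, AlgebraicIndependent ℂ f ∧
        (∃ a b : ℂ, φ.γ (f 0) = algebraMap ℂ K a * f 0 + algebraMap ℂ K b) ∧
        ∀ i, i ≠ 0 → ∃ a : ℂ, φ.γ (f i) = algebraMap ℂ K a * f i]) ∧
    List.TFAE [S.TwoSections L,
      ∃ j : ℕ, 0 < j ∧ ∃ f : K, (∀ c : ℂ, f ≠ algebraMap ℂ K c) ∧
        IsAlgebraic (IntermediateField.adjoin ℂ {f}) ((φ.γ ^ j) f),
      (Module.finrank ℤ (S.periodic L) : ℕ∞) < {D | S.cls D ∈ S.periodic L}.encard,
      ∃ j : ℕ, 0 < j ∧ ∃ x : Pic, (φ.g ^ j) x = x ∧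
        ∃ E E' : P →₀ ℤ, 0 ≤ E ∧ 0 ≤ E' ∧ E ≠ E' ∧ S.O E = x ∧ S.O E' = x] ∧
    Module.finrank ℤ (S.periodic L) < S.perpRank L :=
  ⟨fun _ hf => φ.pointwise_gap hfd hL hφ hinf hf,
    fun _ _ hj hf => φ.quotient_of_algebraic_pow hL hφ hinf hj hf,
    φ.tfae_normal_form hfd hL hφ hinf, φ.tfae_periodic hfd hL hφ hinf,
    φ.finrank_periodic_lt hL hφ hinf⟩

end Pool.Agent.Results.MP_a405d2_ag.IitakaNorthcott
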