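import Pool.Agent.SYZ.Periodic

/-!
The prime divisors orthogonal to a nef isotropic class `L` in the divisor data of a hyperkähler
manifold decide whether the Iitaka dimension of `L` is at least `1` and whether it is at least `2`.
Let `r` be the rank of `L^⊥`. If at least `r` prime divisors are orthogonal to `L`, some positive
power of `L` has a section. More than `r` (equivalently, infinitely many) prime divisors are
orthogonal to `L` if and only if some positive power of `L` has two linearly independent sections.
The prime divisors orthogonal to `L` have infinitely many classes (equivalently, unbounded degrees)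
if and only if there are two algebraically independent quotients of sections of powers of `L`.
-/

namespace Pool.Agent.Results.MP_a405d2_ag.OrthogonalPrimes

open Pool.Agent.SYZ

theorem result {K P Pic : Type*} [Field K] [Algebra ℂ K] [AddCommGroup Pic] [Module.Finite ℤ Pic]
    [IsAddTorsionFree Pic] (S : HKDivisors K P Pic)
    (hfd : ∀ E : P →₀ ℤ, FiniteDimensional ℂ (S.sections E)) (L : Pic) (hL : S.NefIsotropic L) :
    ((S.perpRank L : ℕ∞) ≤ (S.orth L).encard → S.QEffective L) ∧
    List.TFAE [S.TwoSections L, S.DisjointSections L, (S.orth L).Infinite,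
      (S.perpRank L : ℕ∞) < (S.orth L).encard,
      ∃ f : K, (∀ c : ℂ, f ≠ algebraMap ℂ K c) ∧ ∀ D, D ∉ S.orth L → S.v D f = 0] ∧
    List.TFAE [∃ f : Fin 2 → K, (∀ i, f i ∈ S.sectionQuotients L) ∧ AlgebraicIndependent ℂ f,
      (S.cls '' S.orth L).Infinite,
      ∀ C : ℝ, ∃ D ∈ S.orth L, C < S.deg (S.cls D)] := by
  refine ⟨S.qEffective_of_encard hL, ?_, S.tfae_two hfd hL⟩
  have h := S.tfae hL
  tfae_have 1 ↔ 2 := h.out 0 1
  tfae_have 1 ↔ 3 := h.out 0 2
  tfae_have 1 ↔ 4 := h.out 0 3
  tfae_have 1 → 5 := by
    rintro ⟨k, hk, E, E', hE, hE', hne, h1, h2⟩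
    obtain ⟨f, hf, hfE⟩ := (S.O_eq_zero_iff (E' - E)).1 (by rw [map_sub, h1, h2, sub_self])
    refine ⟨f, ?_, ?_⟩
    · intro c hc
      apply hne
      have hc0 : c ≠ 0 := by
        rintro rfl
        exact hf (by rw [hc, map_zero])
      ext D
      have h3 := hfE D
      rw [hc, S.v_const D c hc0, Finsupp.coe_sub, Pi.sub_apply] at h3
      omega
    · intro D hD
      have s1 := S.support_subset_orth hL hE (by rw [h1, map_zsmul, hL.1, smul_zero])
      have s2 := S.support_subset_orth hL hE' (by rw [h2, map_zsmul, hL.1, smul_zero])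
      have e1 : E D = 0 := by
        by_contra h0
        exact hD (s1 D (Finsupp.mem_support_iff.2 h0))
      have e2 : E' D = 0 := by
        by_contra h0
        exact hD (s2 D (Finsupp.mem_support_iff.2 h0))
      rw [← hfE D, Finsupp.coe_sub, Pi.sub_apply, e1, e2, sub_self]
  tfae_have 5 → 1 := by
    rintro ⟨f, hfc, hf⟩
    have hq := S.quotient_of_orth hL (fun D hneg => by
      by_contra hn
      rw [hf D hn] at hneg
      exact lt_irrefl _ hneg) hfc
    exact S.twoSections_of_quotient hL hfc hq
  tfae_finish

end Pool.Agent.Results.MP_a405d2_ag.OrthogonalPrimes
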