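import Pool.Agent.SYZ.SheafCompare

/-!
Sections of semistable sheaves twisted by classes orthogonal to a nef isotropic class `L`, in the
divisor data of a hyperkähler manifold. Let `V` be a torsion-free sheaf which is semistable of
degree zero with respect to `L` (for instance any tensor bundle of the tangent bundle of a
hyperkähler manifold, or the direct image of the structure sheaf under a generically finite map),
let `x` be orthogonal to `L`, and let `d` be the rank of the subsheaf of `V` generated by the
sections of all twists `V(x + k L)`.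

If `V(x)` has a nonzero section, then `h⁰(V(x + k L))` and `h⁰(k L)` have the same growth, i.e. the
growth of `h⁰(V(x + k L))` determines the Iitaka dimension of `L`: it is `O(k^m)` if and only if
`h⁰(k L)` is. The Iitaka dimension is at least `0` if and only if `V(x + k L)` has a nonzero section
for more than `d` integers `k`; and it is at least `1` if and only if `h⁰(V(x + k L)) > d` for some
`k`, if and only if some sections of some `V(x + k L)` are linearly independent over `ℂ` but not
over the field of meromorphic functions, if and only if `h⁰(V(x + k L))` is unbounded. In any case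
`h⁰(V(x + k L))` lies between two sums of `d` terms `h⁰((k + c_j) L)`, where the integers `c_j` do
not depend on `k`.
-/

namespace Pool.Agent.Results.MP_a405d2_ag.TwistedSheaves

open Pool.Agent.SYZ

theorem result {K P Pic : Type*} [Field K] [Algebra ℂ K] [AddCommGroup Pic]
    (S : HKDivisors K P Pic) (L : Pic) (hL : S.NefIsotropic L)
    {V : Type*} [AddCommGroup V] [Module K V] [Module ℂ V] [IsScalarTower ℂ K V]
    [FiniteDimensional K V] (B : SheafData S V) (hB : B.Semistable L) (x : Pic)
    (hx : S.q L x = 0) :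
    (B.h0 x ≠ 0 →
      (∀ m : ℕ, (∃ C : ℕ, ∀ k : ℕ, S.h0 (k • L) ≤ (C * (k + 1) ^ m : ℕ)) ↔
        ∃ C : ℕ, ∀ k : ℕ, B.h0 (x + k • L) ≤ (C * (k + 1) ^ m : ℕ)) ∧
      (S.QEffective L ↔ (B.genRank L x : ℕ∞) < {k : ℤ | B.h0 (x + k • L) ≠ 0}.encard) ∧
      List.TFAE [S.TwoSections L, ∃ k : ℤ, (B.genRank L x : ℕ∞) < B.h0 (x + k • L),
        ∃ (k : ℤ) (E : P →₀ ℤ), S.O E = x + k • L ∧ ∃ (N : ℕ) (t : Fin N → V),
          (∀ i, t i ∈ B.sections E) ∧ LinearIndependent ℂ t ∧ ¬ LinearIndependent K t,
        ∀ N : ℕ, ∃ k : ℕ, (N : ℕ∞) ≤ B.h0 (x + k • L)]) ∧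
    ∃ a c : Fin (B.genRank L x) → ℤ, ∀ k : ℤ, ∑ j, S.h0 ((k - a j) • L) ≤ B.h0 (x + k • L) ∧
      B.h0 (x + k • L) ≤ ∑ j, S.h0 ((k + c j) • L) :=
  ⟨fun hne => ⟨B.growth_iff' hL hB hx hne, B.qEffective_iff_encard hL hB hx hne,
    B.tfae_two hL hB hx hne⟩, B.exists_shifts hL hB hx⟩

end Pool.Agent.Results.MP_a405d2_ag.TwistedSheaves
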